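import Pool.Agent.H88.CM.Cha

/-!
# Board clm_modules, row CLB: one active bump
-/

set_option autoImplicit false

open Set Function Topology Metric Filter
open scoped Manifold
open Pool.Agent.H88.CL Pool.Agent.H88.CM

namespace Pool.Agent.H10.CM

theorem fin_lower {n : ℕ} (e : Fin n → ℝ) (he : ∀ k, 0 < e k) : ∃ e0 : ℝ, 0 < e0 ∧ ∀ k, e0 ≤ e k := by
  rcases Nat.eq_zero_or_pos n with rfl | hn
  · exact ⟨1, one_pos, fun k => k.elim0⟩
  · have : Nonempty (Fin n) := ⟨⟨0, hn⟩⟩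
    obtain ⟨k0, hk0⟩ := Finite.exists_min e
    exact ⟨e k0, he k0, hk0⟩

theorem fin_upper {n : ℕ} (e : Fin n → ℝ) : ∃ e0 : ℝ, 1 ≤ e0 ∧ ∀ k, e k ≤ e0 := by
  refine ⟨1 + ∑ k, |e k|, ?_, fun k => ?_⟩
  · have : 0 ≤ ∑ k, |e k| := Finset.sum_nonneg fun k _ => abs_nonneg _
    linarith
  · have h1 : |e k| ≤ ∑ k, |e k| :=
      Finset.single_le_sum (f := fun k => |e k|) (fun k _ => abs_nonneg _) (Finset.mem_univ k)
    have h2 := le_abs_self (e k)
    linarith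

theorem tre_fin (h1 : T_TRE) {d n : ℕ} (O S : Fin n → Set (E d)) (F : Fin n → E d → E d)
    (hO : ∀ i, IsOpen (O i)) (hS : ∀ i, IsCompact (S i)) (hSO : ∀ i, S i ⊆ O i)
    (hF : ∀ i, ContDiffOn ℝ 2 (F i) (O i)) : ∃ r L : ℝ, 0 < r ∧ 1 ≤ L ∧ ∀ i, ∀ c ∈ S i,
      closedBall c r ⊆ O i ∧ (∀ x ∈ closedBall c r, ‖fderiv ℝ (F i) x‖ ≤ L) ∧
      ∀ x ∈ closedBall c r, ∀ y ∈ closedBall c r,
        ‖fderiv ℝ (F i) x - fderiv ℝ (F i) y‖ ≤ L * ‖x - y‖ := by
  choose r L hr hL h using fun i => h1 d (O i) (S i) (F i) (hO i) (hS i) (hSO i) (hF i)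
  obtain ⟨r0, hr0, hr0'⟩ := fin_lower r hr
  obtain ⟨L0, hL0, hL0'⟩ := fin_upper L
  refine ⟨r0, L0, hr0, hL0, fun i c hc => ?_⟩
  obtain ⟨a, b, e⟩ := h i c hc
  have hs : closedBall c r0 ⊆ closedBall c (r i) := closedBall_subset_closedBall (hr0' i)
  refine ⟨hs.trans a, fun x hx => (b x (hs hx)).trans (hL0' i), fun x hx y hy => ?_⟩
  exact (e x (hs hx) y (hs hy)).trans (mul_le_mul_of_nonneg_right (hL0' i) (norm_nonneg _))

theorem comp_split {d : ℕ} (a0 a1 b0 b1 : E d →L[ℝ] E d) : a0.comp b0 - a1.comp b1 =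
    (a0 - a1).comp b0 + a1.comp (b0 - b1) := by
  rw [ContinuousLinearMap.sub_comp, ContinuousLinearMap.comp_sub]
  abel

/-- the local estimate -/
theorem local_est (h2 : T_CLSL) {d : ℕ} {L r σ β γ : ℝ} {Θ τ : E d → E d} {w0 : E d}
    {Kh O1 : Set (E d)} {u : E d → E d} (hL : 1 ≤ L) (hr : 0 < r) (hO1 : IsOpen O1)
    (hΘ : ContDiffOn ℝ 2 Θ O1) (hb1 : closedBall (τ w0) r ⊆ O1)
    (hΘ1 : ∀ x ∈ closedBall (τ w0) r, ‖fderiv ℝ Θ x‖ ≤ L)
    (hΘ2 : ∀ x ∈ closedBall (τ w0) r, ∀ y ∈ closedBall (τ w0) r,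
      ‖fderiv ℝ Θ x - fderiv ℝ Θ y‖ ≤ L * ‖x - y‖)
    (hτd : ∀ x ∈ closedBall w0 r, DifferentiableAt ℝ τ x)
    (hτ1 : ∀ x ∈ closedBall w0 r, ‖fderiv ℝ τ x‖ ≤ L)
    (hτ2 : ∀ x ∈ closedBall w0 r, ∀ y ∈ closedBall w0 r,
      ‖fderiv ℝ τ x - fderiv ℝ τ y‖ ≤ L * ‖x - y‖)
    (hu : Bp d Kh σ β γ u) (hσ : 4 * σ ≤ r) (hβ : β ≤ 1 / 2) :
    ‖Θ (τ w0 + u (τ w0)) - Θ (τ w0)‖ ≤ L * σ ∧
    ‖fderiv ℝ (fun w => Θ (τ w + u (τ w))) w0 - fderiv ℝ (fun w => Θ (τ w)) w0‖ ≤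
      L ^ 2 * (σ + β) ∧ ∀ w, ‖w - w0‖ < r / (4 * L) →
    ‖(fderiv ℝ (fun w => Θ (τ w + u (τ w))) w0 - fderiv ℝ (fun w => Θ (τ w)) w0) -
      (fderiv ℝ (fun w => Θ (τ w + u (τ w))) w - fderiv ℝ (fun w => Θ (τ w)) w)‖ ≤
      3 * L ^ 3 * (min σ ‖w - w0‖ + min β ((β + γ) * ‖w - w0‖) + (σ + β) * ‖w - w0‖) := by
  have hL0 : 0 < L := by linarith
  have hσ0 : 0 ≤ σ := (norm_nonneg _).trans (hu.s w0)
  have hβ0 : 0 ≤ β := (norm_nonneg _).trans (hu.b w0)
  obtain ⟨e1, e2⟩ := h2 d L r Θ (τ w0) Kh σ β γ u hL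
    (hΘ.mono (ball_subset_closedBall.trans hb1)) (fun x hx => hΘ1 x (ball_subset_closedBall hx))
    (fun x hx y hy => hΘ2 x (ball_subset_closedBall hx) y (ball_subset_closedBall hy)) hu hβ
  have hsmall : r / (4 * L) ≤ r := by
    rw [div_le_iff₀ (by positivity)]
    nlinarith
  -- the map `τ`
  have hτl : ∀ w, ‖w - w0‖ < r / (4 * L) → ‖τ w - τ w0‖ ≤ L * ‖w - w0‖ := by
    intro w hw
    refine (convex_closedBall w0 r).norm_image_sub_le_of_norm_fderiv_le hτd hτ1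
      (mem_closedBall_self hr.le) ?_
    rw [mem_closedBall, dist_eq_norm]
    linarith
  have hτs : ∀ w, ‖w - w0‖ < r / (4 * L) → ‖τ w - τ w0‖ + σ < r := by
    intro w hw
    have h3 := hτl w hw
    rw [lt_div_iff₀ (by positivity)] at hw
    nlinarith
  have hw00 : ‖w0 - w0‖ < r / (4 * L) := by
    rw [sub_self, norm_zero]
    positivity
  -- the derivatives
  have hfor : ∀ w, ‖w - w0‖ < r / (4 * L) →
      fderiv ℝ (fun w => Θ (τ w + u (τ w))) w - fderiv ℝ (fun w => Θ (τ w)) w =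
      (fderiv ℝ (fun v => Θ (v + u v)) (τ w) - fderiv ℝ Θ (τ w)).comp (fderiv ℝ τ w) := by
    intro w hw
    have h3 := hτs w hw
    have hwb : w ∈ closedBall w0 r := by
      rw [mem_closedBall, dist_eq_norm]
      linarith
    have h4 : τ w ∈ O1 := by
      refine hb1 ?_
      rw [mem_closedBall, dist_eq_norm]
      linarith
    have h5 : τ w + u (τ w) ∈ O1 := by
      refine hb1 ?_
      rw [mem_closedBall, dist_eq_norm]
      have h6 : τ w + u (τ w) - τ w0 = (τ w - τ w0) + u (τ w) := by abel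
      rw [h6]
      have := norm_add_le (τ w - τ w0) (u (τ w))
      have := hu.s (τ w)
      linarith
    have d1 : DifferentiableAt ℝ Θ (τ w) :=
      (hΘ.contDiffAt (hO1.mem_nhds h4)).differentiableAt (by norm_num)
    have d2 : DifferentiableAt ℝ Θ (τ w + u (τ w)) :=
      (hΘ.contDiffAt (hO1.mem_nhds h5)).differentiableAt (by norm_num)
    have d3 : DifferentiableAt ℝ (fun v => v + u v) (τ w) :=
      differentiableAt_id.add (hu.c2.differentiable (by norm_num) _)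
    have d4 : DifferentiableAt ℝ (fun v => Θ (v + u v)) (τ w) :=
      DifferentiableAt.comp (g := Θ) (f := fun v => v + u v) (τ w) d2 d3
    have f1 : fderiv ℝ (fun w => Θ (τ w + u (τ w))) w =
        (fderiv ℝ (fun v => Θ (v + u v)) (τ w)).comp (fderiv ℝ τ w) :=
      fderiv_comp (g := fun v => Θ (v + u v)) (f := τ) w d4 (hτd w hwb)
    have f2 : fderiv ℝ (fun w => Θ (τ w)) w = (fderiv ℝ Θ (τ w)).comp (fderiv ℝ τ w) :=
      fderiv_comp (g := Θ) (f := τ) w d1 (hτd w hwb)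
    rw [f1, f2, ContinuousLinearMap.sub_comp]
  have hw0b : w0 ∈ closedBall w0 r := mem_closedBall_self hr.le
  refine ⟨(e1 (τ w0) (hτs w0 hw00)).1, ?_, fun w hw => ?_⟩
  · rw [hfor w0 hw00]
    refine (ContinuousLinearMap.opNorm_comp_le _ _).trans ?_
    have h3 := (e1 (τ w0) (hτs w0 hw00)).2
    calc _ ≤ (L * (σ + β)) * L := mul_le_mul h3 (hτ1 w0 hw0b) (norm_nonneg _) (by positivity)
      _ = L ^ 2 * (σ + β) := by ring
  · rw [hfor w0 hw00, hfor w hw]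
    have hwb : w ∈ closedBall w0 r := by
      rw [mem_closedBall, dist_eq_norm]
      linarith
    set a0 := fderiv ℝ (fun v => Θ (v + u v)) (τ w0) - fderiv ℝ Θ (τ w0) with ha0
    set a1 := fderiv ℝ (fun v => Θ (v + u v)) (τ w) - fderiv ℝ Θ (τ w) with ha1
    have hsplit : a0.comp (fderiv ℝ τ w0) - a1.comp (fderiv ℝ τ w) =
        (a0 - a1).comp (fderiv ℝ τ w0) + a1.comp (fderiv ℝ τ w0 - fderiv ℝ τ w) :=
      comp_split _ _ _ _
    have g1 := e2 (τ w0) (τ w) (hτs w0 hw00) (hτs w hw)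
    rw [← ha0, ← ha1] at g1
    have g2 : ‖τ w0 - τ w‖ ≤ L * ‖w - w0‖ := by
      rw [norm_sub_rev]
      exact hτl w hw
    have g3 : ‖a1‖ ≤ L * (σ + β) := (e1 (τ w) (hτs w hw)).2
    have g4 : ‖fderiv ℝ τ w0 - fderiv ℝ τ w‖ ≤ L * ‖w - w0‖ := by
      rw [norm_sub_rev w w0]
      exact hτ2 w0 hw0b w hwb
    have g5 : ‖fderiv ℝ τ w0‖ ≤ L := hτ1 w0 hw0b
    obtain ⟨δ, hδ⟩ : ∃ δ : ℝ, δ = ‖w - w0‖ := ⟨_, rfl⟩
    have hδ0 : 0 ≤ δ := by rw [hδ]; exact norm_nonneg _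
    have hγ : 0 ≤ γ * δ := by
      rw [hδ]
      exact (norm_nonneg _).trans (hu.g w w0)
    have hγt : 0 ≤ γ * ‖τ w0 - τ w‖ := (norm_nonneg _).trans (hu.g (τ w0) (τ w))
    rw [← hδ] at g2 g4 ⊢
    have hL1 : L ≤ L ^ 2 := by nlinarith
    have hL2 : L ^ 2 ≤ L ^ 3 := by nlinarith [sq_nonneg L]
    obtain ⟨t, ht⟩ : ∃ t : ℝ, t = ‖τ w0 - τ w‖ := ⟨_, rfl⟩
    have ht0 : 0 ≤ t := by rw [ht]; exact norm_nonneg _
    rw [← ht] at g1 g2 hγt
    have m1 : min (2 * L * σ) (3 * L * t) ≤ 3 * L ^ 2 * min σ δ := by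
      rw [mul_min_of_nonneg _ _ (by positivity : (0 : ℝ) ≤ 3 * L ^ 2)]
      refine min_le_min ?_ ?_
      · nlinarith
      · nlinarith
    have m2 : min (2 * L * β) (L * (2 * β + γ) * t) ≤ 2 * L ^ 2 * min β ((β + γ) * δ) := by
      rw [mul_min_of_nonneg _ _ (by positivity : (0 : ℝ) ≤ 2 * L ^ 2)]
      refine min_le_min ?_ ?_
      · nlinarith
      · have n0 := mul_le_mul_of_nonneg_left g2 (by positivity : (0 : ℝ) ≤ L * (2 * β))
        have n1 : L * (2 * β + γ) * t ≤ L * (2 * β * (L * δ)) + L * (γ * t) := by linarith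
        have n2 : γ * t ≤ γ * (L * δ) := by
          rcases le_or_gt 0 γ with h | h
          · exact mul_le_mul_of_nonneg_left g2 h
          · have : γ * δ ≤ 0 := mul_nonpos_of_nonpos_of_nonneg h.le hδ0
            have h3 : γ * δ = 0 := le_antisymm this hγ
            have h4 : γ * t ≤ 0 := mul_nonpos_of_nonpos_of_nonneg h.le ht0
            nlinarith
        have n3 : 0 ≤ L ^ 2 * (γ * δ) := by positivity
        nlinarith
    have hmin1 : 0 ≤ min σ δ := le_min hσ0 hδ0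
    have hmin2 : 0 ≤ min β ((β + γ) * δ) := le_min hβ0 (by nlinarith)
    rw [hsplit]
    calc ‖(a0 - a1).comp (fderiv ℝ τ w0) + a1.comp (fderiv ℝ τ w0 - fderiv ℝ τ w)‖
        ≤ ‖a0 - a1‖ * ‖fderiv ℝ τ w0‖ + ‖a1‖ * ‖fderiv ℝ τ w0 - fderiv ℝ τ w‖ :=
          (norm_add_le _ _).trans (add_le_add (ContinuousLinearMap.opNorm_comp_le _ _)
            (ContinuousLinearMap.opNorm_comp_le _ _))
      _ ≤ (3 * L ^ 2 * min σ δ + 2 * L ^ 2 * min β ((β + γ) * δ)) * L +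
          (L * (σ + β)) * (L * δ) := by
          refine add_le_add ?_ ?_
          · refine mul_le_mul (g1.trans (add_le_add m1 m2)) g5 (norm_nonneg _) ?_
            positivity
          · exact mul_le_mul g3 g4 (norm_nonneg _) (by positivity)
      _ ≤ _ := by
          have n1 : 0 ≤ (σ + β) * δ := by positivity
          have n2 : L ^ 2 * ((σ + β) * δ) ≤ L ^ 3 * ((σ + β) * δ) :=
            mul_le_mul_of_nonneg_right hL2 n1
          have n3 : 0 ≤ L ^ 3 * min β ((β + γ) * δ) := by positivity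
          have n4 : 0 ≤ L ^ 3 * ((σ + β) * δ) := by positivity
          nlinarith

theorem pf_CLB (h1 : T_TRE) (h2 : T_CLSL) : T_CLB := by
  intro d M _ _ _ _ _ n A Kh r0 hGA f f' hf φ ψ K hT
  obtain ⟨K1, hK1⟩ : ∃ K1 : Fin n → Set M, K1 = fun i => K ∩ (A i).symm '' Kh i := ⟨_, rfl⟩
  have hK1c : ∀ i, IsCompact (K1 i) := fun i => by
    have : IsCompact ((A i).symm '' Kh i) :=
      (hGA.cpt i).image_of_continuousOn ((A i).continuousOn_symm.mono (hGA.sub i))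
    rw [hK1]
    exact hT.c.inter_right this.isClosed
  have hK1m : ∀ i y, y ∈ K → y ∈ (A i).source → A i y ∈ Kh i → y ∈ K1 i := fun i y a b c => by
    rw [hK1]
    exact ⟨a, ⟨A i y, c, (A i).left_inv b⟩⟩
  have hK1K : ∀ i, ∀ y ∈ K1 i, y ∈ K := fun i y hy => by
    rw [hK1] at hy
    exact hy.1
  have hK1s : ∀ i, ∀ y ∈ K1 i, y ∈ (A i).source := by
    intro i y hy
    rw [hK1] at hy
    obtain ⟨_, v, hv, rfl⟩ := hy
    exact (A i).map_target (hGA.sub i hv)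
  obtain ⟨rT, LT, hrT, hLT, hTT⟩ := tre_fin h1
    (fun i => (A i).target ∩ (A i).symm ⁻¹' (f ⁻¹' ψ.source)) (fun i => A i '' K1 i)
    (fun i => rep (A i) ψ f)
    (fun i => (A i).isOpen_inter_preimage_symm (ψ.open_source.preimage hf.c.continuous))
    (fun i => (hK1c i).image_of_continuousOn ((A i).continuousOn.mono (hK1s i)))
    (by
      rintro i _ ⟨y, hy, rfl⟩
      refine ⟨(A i).map_source (hK1s i y hy), ?_⟩
      rw [mem_preimage, mem_preimage, (A i).left_inv (hK1s i y hy)]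
      exact hT.t y (hK1K i y hy))
    (fun i v hv => (rep_contDiffAt (hGA.atl i) hT.b hf.c hv.1 hv.2).contDiffWithinAt)
  obtain ⟨rt, Lt, hrt, hLt, htt⟩ := tre_fin h1
    (fun i => φ.target ∩ φ.symm ⁻¹' (A i).source) (fun i => φ '' K1 i)
    (fun i => rep φ (A i) id)
    (fun i => φ.isOpen_inter_preimage_symm (A i).open_source)
    (fun i => (hK1c i).image_of_continuousOn (φ.continuousOn.mono fun y hy =>
      hT.s (hK1K i y hy)))
    (by
      rintro i _ ⟨y, hy, rfl⟩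
      refine ⟨φ.map_source (hT.s (hK1K i y hy)), ?_⟩
      rw [mem_preimage, φ.left_inv (hT.s (hK1K i y hy))]
      exact hK1s i y hy)
    (fun i v hv => (rep_contDiffAt hT.a (hGA.atl i) contMDiff_id hv.1 hv.2).contDiffWithinAt)
  obtain ⟨r, hr⟩ : ∃ r : ℝ, r = min rT rt := ⟨_, rfl⟩
  obtain ⟨L, hL⟩ : ∃ L : ℝ, L = max LT Lt := ⟨_, rfl⟩
  have hr0 : 0 < r := by rw [hr]; exact lt_min hrT hrt
  have hrT' : r ≤ rT := by rw [hr]; exact min_le_left _ _
  have hrt' : r ≤ rt := by rw [hr]; exact min_le_right _ _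
  have hLT' : LT ≤ L := by rw [hL]; exact le_max_left _ _
  have hLt' : Lt ≤ L := by rw [hL]; exact le_max_right _ _
  have hL1 : 1 ≤ L := hLT.trans hLT'
  have hL3 : 1 ≤ L ^ 3 := one_le_pow₀ hL1
  obtain ⟨C, hC⟩ : ∃ C : ℝ, C = max (4 / r) (3 * L ^ 3) := ⟨_, rfl⟩
  have hC1 : 4 / r ≤ C := by rw [hC]; exact le_max_left _ _
  have hC2 : 3 * L ^ 3 ≤ C := by rw [hC]; exact le_max_right _ _
  refine ⟨r / (4 * L), C, by positivity, by linarith, ?_⟩
  intro i σ β γ u hu hCσ hβ y hy hys hyk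
  have hyK := hK1m i y hy hys hyk
  have hσ0 : 0 ≤ σ := (norm_nonneg _).trans (hu.s 0)
  have hβ0 : 0 ≤ β := (norm_nonneg _).trans (hu.b 0)
  have hσr : 4 * σ ≤ r := by
    have h3 : 4 / r * σ ≤ 1 := (mul_le_mul_of_nonneg_right hC1 hσ0).trans hCσ
    rwa [div_mul_eq_mul_div, div_le_iff₀ hr0, one_mul] at h3
  have hτ0 : rep φ (A i) id (φ y) = A i y := by
    show A i (φ.symm (φ y)) = A i y
    rw [φ.left_inv (hT.s hy)]
  obtain ⟨a1, a2, a3⟩ := hTT i (A i y) (mem_image_of_mem _ hyK)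
  obtain ⟨b1, b2, b3⟩ := htt i (φ y) (mem_image_of_mem _ hyK)
  have sT : closedBall (A i y) r ⊆ closedBall (A i y) rT := closedBall_subset_closedBall hrT'
  have st : closedBall (φ y) r ⊆ closedBall (φ y) rt := closedBall_subset_closedBall hrt'
  have hmain := local_est h2 (L := L) (r := r) (σ := σ) (β := β) (γ := γ) (Θ := rep (A i) ψ f)
    (τ := rep φ (A i) id) (w0 := φ y) (Kh := Kh i)
    (O1 := (A i).target ∩ (A i).symm ⁻¹' (f ⁻¹' ψ.source)) (u := u) hL1 hr0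
    ((A i).isOpen_inter_preimage_symm (ψ.open_source.preimage hf.c.continuous))
    (fun v hv => (rep_contDiffAt (hGA.atl i) hT.b hf.c hv.1 hv.2).contDiffWithinAt)
    (by rw [hτ0]; exact sT.trans a1)
    (by rw [hτ0]; exact fun x hx => (a2 x (sT hx)).trans hLT')
    (by
      rw [hτ0]
      exact fun x hx z hz => (a3 x (sT hx) z (sT hz)).trans
        (mul_le_mul_of_nonneg_right hLT' (norm_nonneg _)))
    (fun x hx => rep_diff hT.a (hGA.atl i) contMDiff_id (b1 (st hx)).1 (b1 (st hx)).2)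
    (fun x hx => (b2 x (st hx)).trans hLt')
    (fun x hx z hz => (b3 x (st hx) z (st hz)).trans
        (mul_le_mul_of_nonneg_right hLt' (norm_nonneg _)))
    hu hσr hβ
  obtain ⟨m1, m2, m3⟩ := hmain
  -- the identifications
  have ev : ∀ w, ‖w - φ y‖ ≤ r → rep φ ψ (f ∘ bmp (A i) u) =ᶠ[𝓝 w]
      (fun w => rep (A i) ψ f (rep φ (A i) id w + u (rep φ (A i) id w))) ∧
      rep φ ψ f =ᶠ[𝓝 w] fun w => rep (A i) ψ f (rep φ (A i) id w) := by
    intro w hw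
    have hwb : w ∈ closedBall (φ y) r := by
      rw [mem_closedBall, dist_eq_norm]
      exact hw
    have hO : φ.target ∩ φ.symm ⁻¹' (A i).source ∈ 𝓝 w :=
      (φ.isOpen_inter_preimage_symm (A i).open_source).mem_nhds (b1 (st hwb))
    constructor
    · filter_upwards [hO] with v hv
      have hv2 : φ.symm v ∈ (A i).source := hv.2
      show ψ (f (bmp (A i) u (φ.symm v))) =
        ψ (f ((A i).symm (A i (φ.symm v) + u (A i (φ.symm v)))))
      rw [bmp_of_mem hv2]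
    · filter_upwards [hO] with v hv
      have hv2 : φ.symm v ∈ (A i).source := hv.2
      show ψ (f (φ.symm v)) = ψ (f ((A i).symm (A i (φ.symm v))))
      rw [(A i).left_inv hv2]
  have hs : r / (4 * L) ≤ r := by
    rw [div_le_iff₀ (by positivity)]
    nlinarith
  have ev0 := ev (φ y) (by rw [sub_self, norm_zero]; exact hr0.le)
  rw [hτ0] at m1
  have hLC : L ≤ C := by nlinarith [sq_nonneg L, mul_self_nonneg (L - 1)]
  have hL2 : L ^ 2 ≤ L ^ 3 := pow_le_pow_right₀ hL1 (by norm_num)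
  refine ⟨?_, ?_, ?_, ?_⟩
  · rw [bmp_of_mem hys]
    have h5 : A i y + u (A i y) ∈ closedBall (A i y) rT := by
      rw [mem_closedBall, dist_eq_norm, add_sub_cancel_left]
      have := hu.s (A i y)
      linarith
    exact (a1 h5).2
  · rw [bmp_of_mem hys]
    have h5 : ψ (f y) = rep (A i) ψ f (A i y) := by
      show ψ (f y) = ψ (f ((A i).symm (A i y)))
      rw [(A i).left_inv hys]
    rw [h5]
    exact m1.trans (mul_le_mul_of_nonneg_right hLC hσ0)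
  · rw [ev0.1.fderiv_eq, ev0.2.fderiv_eq]
    refine m2.trans (mul_le_mul_of_nonneg_right ?_ (by positivity))
    linarith
  · intro w hw
    have ev1 := ev w (hw.le.trans hs)
    rw [ev0.1.fderiv_eq, ev0.2.fderiv_eq, ev1.1.fderiv_eq, ev1.2.fderiv_eq]
    refine (m3 w hw).trans (mul_le_mul_of_nonneg_right hC2 ?_)
    have hγ : 0 ≤ γ * ‖w - φ y‖ := (norm_nonneg _).trans (hu.g w (φ y))
    have n1 : 0 ≤ min σ ‖w - φ y‖ := le_min hσ0 (norm_nonneg _)
    have n0 : 0 ≤ β * ‖w - φ y‖ := by positivity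
    have n2 : 0 ≤ min β ((β + γ) * ‖w - φ y‖) := le_min hβ0 (by linarith)
    have n3 : 0 ≤ (σ + β) * ‖w - φ y‖ := by positivity
    linarith

end Pool.Agent.H10.CM
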