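import Pool.Agent.H60.CM.Basic

/-!
# Stable surfaces of constant mean curvature spanning a circle: row LOW
-/

set_option autoImplicit false

open Set Function MeasureTheory Filter Topology
open scoped Manifold ContDiff Matrix
open Pool.Agent.H60.CM

namespace Pool.Agent.H10.CM

/-- coordinates at a point; the second one belongs to the direction `i` -/
noncomputable def bx (y0 : E2) (i j : Fin 2) (p : ℝ × ℝ) : E2 := y0 + (p.2 • ee i + p.1 • ee j)

theorem bx_one (y0 : E2) : bx y0 1 0 =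
    (fun y => y0 + y) ∘ (WithLp.toLp 2 : (Fin 2 → ℝ) → E2) ∘
      (MeasurableEquiv.finTwoArrow (α := ℝ)).symm := by
  funext p
  ext k
  fin_cases k <;> simp [bx, ee, MeasurableEquiv.finTwoArrow]

theorem bx_zero (y0 : E2) : bx y0 0 1 = bx y0 1 0 ∘ Prod.swap := by
  funext p
  simp only [bx, comp_apply, Prod.fst_swap, Prod.snd_swap]
  rw [add_comm (p.2 • ee 0)]

theorem bx_mp1 (y0 : E2) : MeasurePreserving (bx y0 1 0) volume volume ∧
    MeasurableEmbedding (bx y0 1 0) := by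
  rw [bx_one]
  refine ⟨(measurePreserving_add_left volume y0).comp ((PiLp.volume_preserving_toLp (Fin 2)).comp
    ((volume_preserving_finTwoArrow ℝ).symm)), ?_⟩
  refine (measurableEmbedding_addLeft y0).comp ?_
  exact (MeasurableEquiv.toLp 2 (Fin 2 → ℝ)).measurableEmbedding.comp
    (MeasurableEquiv.finTwoArrow (α := ℝ)).symm.measurableEmbedding

theorem bx_mp (y0 : E2) (i j : Fin 2) (hij : i ≠ j) :
    MeasurePreserving (bx y0 i j) volume volume ∧ MeasurableEmbedding (bx y0 i j) := by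
  have h1 := bx_mp1 y0
  have h0 : MeasurePreserving (bx y0 0 1) volume volume ∧ MeasurableEmbedding (bx y0 0 1) := by
    rw [bx_zero]
    exact ⟨h1.1.comp Measure.measurePreserving_swap,
      h1.2.comp MeasurableEquiv.prodComm.measurableEmbedding⟩
  fin_cases i <;> fin_cases j
  · exact absurd rfl hij
  · exact h0
  · exact h1
  · exact absurd rfl hij

theorem bx_cont (y0 : E2) (i j : Fin 2) : Continuous (bx y0 i j) := by
  unfold bx
  fun_prop

/-- the primitive: one variable -/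
theorem one_var {Φ : ℝ → ℝ} (hΦ : Aux Φ) {g g' : ℝ → ℝ} {δ ε β σ : ℝ} (hδ : 0 < δ) (hε : 0 < ε)
    (hβ : 2 * ε ≤ β) (hσ : σ = 1 ∨ σ = -1) (hg : ∀ s ∈ Icc (-δ) δ, HasDerivAt g (g' s) s)
    (hc : ContinuousOn g' (Icc (-δ) δ)) (h1 : β ≤ σ * g δ) (h2 : σ * g (-δ) ≤ -β) :
    ∫ s in Ioo (-δ) δ, deriv (deriv Φ) (g s / ε) / ε * (σ * g' s) = 1 := by
  have hd1 : ContDiff ℝ ∞ (deriv Φ) := by
    have := hΦ.smooth
    exact (contDiff_infty_iff_deriv.1 this).2
  have hd2 : ContDiff ℝ ∞ (deriv (deriv Φ)) := (contDiff_infty_iff_deriv.1 hd1).2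
  have hu : uIcc (-δ) δ = Icc (-δ) δ := uIcc_of_le (by linarith)
  have hgc : ContinuousOn g (Icc (-δ) δ) := fun s hs => (hg s hs).continuousAt.continuousWithinAt
  have hD : ∀ s ∈ uIcc (-δ) δ, HasDerivAt (fun s => σ * deriv Φ (g s / ε))
      (deriv (deriv Φ) (g s / ε) / ε * (σ * g' s)) s := by
    intro s hs
    rw [hu] at hs
    have e1 : HasDerivAt (deriv Φ) (deriv (deriv Φ) (g s / ε)) (g s / ε) :=
      ((hd1.differentiable (by simp)) _).hasDerivAt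
    have e2 : HasDerivAt (fun s => g s / ε) (g' s / ε) s := (hg s hs).div_const ε
    have e3 := (HasDerivAt.comp s e1 e2).const_mul σ
    have e4 : deriv (deriv Φ) (g s / ε) / ε * (σ * g' s) =
        σ * (deriv (deriv Φ) (g s / ε) * (g' s / ε)) := by ring
    rw [e4]
    exact e3
  have hI : IntervalIntegrable (fun s => deriv (deriv Φ) (g s / ε) / ε * (σ * g' s)) volume
      (-δ) δ := by
    refine ContinuousOn.intervalIntegrable ?_
    rw [hu]
    exact ((hd2.continuous.comp_continuousOn (hgc.div_const ε)).div_const ε).mul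
      (continuousOn_const.mul hc)
  have hF := intervalIntegral.integral_eq_sub_of_hasDerivAt hD hI
  rw [intervalIntegral.integral_of_le (by linarith), integral_Ioc_eq_integral_Ioo] at hF
  rw [hF]
  -- values of the derivative
  have z0 : ∀ t, t < 1 → deriv Φ t = 0 := by
    intro t ht
    have : Φ =ᶠ[𝓝 t] fun _ => 0 := by
      filter_upwards [Iio_mem_nhds ht] with u hu
      exact hΦ.zero u (le_of_lt hu)
    rw [this.deriv_eq]
    simp
  have hp : ∀ t, 2 * ε ≤ t → deriv Φ (t / ε) = 1 := fun t ht =>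
    hΦ.d2 _ ((le_div_iff₀ hε).2 ht)
  have hn : ∀ t, t ≤ -(2 * ε) → deriv Φ (t / ε) = 0 := fun t ht =>
    z0 _ (by
      have : t / ε ≤ -2 := (div_le_iff₀ hε).2 (by linarith)
      linarith)
  rcases hσ with rfl | rfl
  · rw [hp _ (by linarith), hn _ (by linarith)]
    ring
  · rw [hn _ (by linarith), hp _ (by linarith)]
    ring

theorem bx_i (y0 : E2) (i j : Fin 2) (hij : i ≠ j) (p : ℝ × ℝ) : bx y0 i j p i = y0 i + p.2 := by
  fin_cases i <;> fin_cases j <;> simp_all [bx, ee]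

theorem bx_j (y0 : E2) (i j : Fin 2) (hij : i ≠ j) (p : ℝ × ℝ) : bx y0 i j p j = y0 j + p.1 := by
  fin_cases i <;> fin_cases j <;> simp_all [bx, ee]

theorem bx_surj (y0 : E2) (i j : Fin 2) (hij : i ≠ j) (y : E2) :
    bx y0 i j (y j - y0 j, y i - y0 i) = y := by
  ext k
  have h1 := bx_i y0 i j hij (y j - y0 j, y i - y0 i)
  have h2 := bx_j y0 i j hij (y j - y0 j, y i - y0 i)
  simp only [add_sub_cancel] at h1 h2
  by_cases hk : k = i
  · rw [hk]
    exact h1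
  · have : k = j := by omega
    rw [this]
    exact h2

theorem aw_cont {O : Set E2} {X : E2 → V3} (hO : IsOpen O) (hX : ContDiffOn ℝ ∞ X O) :
    ContinuousOn (aw X) O := by
  have hp : ∀ i, ContinuousOn (fun y => pd X y i) O := fun i =>
    (hX.continuousOn_fderiv_of_isOpen hO (by simp)).clm_apply continuousOn_const
  have hq : ∀ i k, ContinuousOn (fun y => pd X y i k) O := fun i k =>
    (continuous_apply k).comp_continuousOn (hp i)
  unfold aw
  refine Real.continuous_sqrt.comp_continuousOn ?_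
  simp only [cross_apply, Matrix.vec3_dotProduct, Matrix.cons_val_zero, Matrix.cons_val_one,
    Matrix.cons_val]
  have a := hq 0 0
  have b := hq 0 1
  have c := hq 0 2
  have d := hq 1 0
  have e := hq 1 1
  have g := hq 1 2
  fun_prop

theorem aw_pos {X : E2 → V3} {y : E2} (h : pd X y 0 ⨯₃ pd X y 1 ≠ 0) : 0 < aw X y := by
  unfold aw
  refine Real.sqrt_pos.2 (lt_of_le_of_ne ?_ ?_)
  · simp only [Matrix.vec3_dotProduct]
    nlinarith [mul_self_nonneg ((pd X y 0 ⨯₃ pd X y 1) 0), mul_self_nonneg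
      ((pd X y 0 ⨯₃ pd X y 1) 1), mul_self_nonneg ((pd X y 0 ⨯₃ pd X y 1) 2)]
  · intro h0
    exact h (dotProduct_self_eq_zero.1 h0.symm)

theorem ex_c {a b : ℝ} (ha : 0 < a) (hb : 0 < b) : ∃ c : ℝ, 0 < c ∧ c * b < a := by
  refine ⟨a / (2 * b), by positivity, ?_⟩
  have : a / (2 * b) * b = a / 2 := by field_simp
  rw [this]
  linarith

theorem pf_LOW (h1 : T_PAT) (h2 : T_PDF) (_h3 : T_PGR) (h4 : T_ARE) (h5 : T_NNG) (h6 : T_CON) :
    T_LOW := by
  intro Y f hf q hq hfq hd Φ hΦ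
  have hAo : IsOpen (Y.A ∩ Y.int) := Y.half.isOpen.inter Y.toDat.int_open
  obtain ⟨O, ψ, y0, hP, hy0, hψ0, hOA⟩ := h1 Y.toDat q (Y.A ∩ Y.int) hq.2 hAo hq
  obtain ⟨φ, hφ⟩ : ∃ φ : E2 → ℝ, φ = f ∘ ψ := ⟨_, rfl⟩
  have hφs : ContDiffOn ℝ ∞ φ O := by
    obtain ⟨_, _, _, _, _, h⟩ := h2 Y.toDat O ψ hP y0 hy0
    rw [hφ]
    exact (h ℝ f hf).1
  have hXs : ContDiffOn ℝ ∞ (Y.x ∘ ψ) O := by
    obtain ⟨_, _, _, _, _, h⟩ := h2 Y.toDat O ψ hP y0 hy0
    exact (h V3 Y.x Y.toDat.smx).1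
  obtain ⟨i, hi⟩ : ∃ i, pd φ y0 i ≠ 0 := by
    obtain ⟨m00, m01, m10, m11, hm, h⟩ := h2 Y.toDat O ψ hP y0 hy0
    obtain ⟨_, e0, e1⟩ := h ℝ f hf
    by_contra hcon
    push Not at hcon
    have a0 := hcon 0
    have a1 := hcon 1
    rw [hφ, e0, hψ0] at a0
    rw [hφ, e1, hψ0] at a1
    simp only [smul_eq_mul] at a0 a1
    have b0 : (m00 * m11 - m01 * m10) * dd f q 0 = 0 := by
      linear_combination m11 * a0 - m01 * a1
    have b1 : (m00 * m11 - m01 * m10) * dd f q 1 = 0 := by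
      linear_combination m00 * a1 - m10 * a0
    rcases hd with hd | hd
    · exact hd ((mul_eq_zero.1 b0).resolve_left hm)
    · exact hd ((mul_eq_zero.1 b1).resolve_left hm)
  obtain ⟨σ, hσ, hσi⟩ : ∃ σ : ℝ, (σ = 1 ∨ σ = -1) ∧ 0 < σ * pd φ y0 i := by
    rcases lt_or_gt_of_ne hi with h | h
    · exact ⟨-1, Or.inr rfl, by linarith⟩
    · exact ⟨1, Or.inl rfl, by linarith⟩
  obtain ⟨j, hji⟩ := exists_ne i
  have hij : i ≠ j := hji.symm
  obtain ⟨ρ, -, hρ⟩ := (SmoothBumpFunction.nhds_basis_tsupport (I := 𝓡∂ 2) q).mem_iff.1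
    (hAo.mem_nhds hq)
  have hρs : Tst (Y.A ∩ Y.int) (ρ : Y.S → ℝ) := ⟨ρ.contMDiff, hρ⟩
  have hρ0 : ∀ p, 0 ≤ ρ p := fun p => ρ.nonneg
  refine ⟨ρ, hρs, hρ0, ?_⟩
  -- continuity
  have hψc : ContinuousOn ψ O := hP.smooth.continuousOn
  have hgc : Continuous (gr Y.x f f) := (h6 Y.toDat f f hf hf).1
  have hg0 : ∀ p, 0 ≤ gr Y.x f f p := fun p => by
    unfold gr
    exact (h5 _ _ _ _ (Y.toDat.cmc.imm p)).1
  have hgq : 0 < gr Y.x f f q := by
    refine lt_of_le_of_ne (hg0 q) fun h0 => ?_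
    have := (h5 _ _ _ _ (Y.toDat.cmc.imm q)).2.1 h0.symm
    rcases hd with hd | hd
    · exact hd this.1
    · exact hd this.2
  have hac : ContinuousOn (aw (Y.x ∘ ψ)) O := aw_cont hP.isOpen hXs
  have ha0 : 0 < aw (Y.x ∘ ψ) y0 := aw_pos (hP.imm y0 hy0)
  have hpc : ContinuousOn (fun y => σ * pd φ y i) O := continuousOn_const.mul
    ((hφs.continuousOn_fderiv_of_isOpen hP.isOpen (by simp)).clm_apply continuousOn_const)
  have hGc : ContinuousOn (fun y => gr Y.x f f (ψ y) * aw (Y.x ∘ ψ) y) O :=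
    (hgc.comp_continuousOn hψc).mul hac
  obtain ⟨c, hc0, hc⟩ : ∃ c : ℝ, 0 < c ∧
      c * (σ * pd φ y0 i) < gr Y.x f f (ψ y0) * aw (Y.x ∘ ψ) y0 := by
    have hκ : 0 < gr Y.x f f (ψ y0) * aw (Y.x ∘ ψ) y0 := by
      rw [hψ0]
      exact mul_pos hgq ha0
    exact ex_c hκ hσi
  have hOn : O ∈ 𝓝 y0 := hP.isOpen.mem_nhds hy0
  have ev1 : ∀ᶠ y in 𝓝 y0, y ∈ O ∧ 0 < σ * pd φ y i ∧
      c * (σ * pd φ y i) ≤ gr Y.x f f (ψ y) * aw (Y.x ∘ ψ) y ∧ ρ (ψ y) = 1 := by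
    have e1 : ∀ᶠ y in 𝓝 y0, 0 < σ * pd φ y i :=
      (hpc.continuousAt hOn).eventually (lt_mem_nhds hσi)
    have e2 : ∀ᶠ y in 𝓝 y0, c * (σ * pd φ y i) < gr Y.x f f (ψ y) * aw (Y.x ∘ ψ) y :=
      ((continuousAt_const.mul (hpc.continuousAt hOn))).eventually_lt (hGc.continuousAt hOn) hc
    have e3 : ∀ᶠ y in 𝓝 y0, ρ (ψ y) = 1 := by
      have : Tendsto ψ (𝓝 y0) (𝓝 q) := by
        have := (hψc.continuousAt hOn).tendsto
        rwa [hψ0] at this
      exact this.eventually ρ.eventuallyEq_one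
    filter_upwards [hOn, e1, e2, e3] with y a b d e
    exact ⟨a, b, le_of_lt d, e⟩
  have hb00 : bx y0 i j (0, 0) = y0 := by simp [bx]
  have ev2 : ∀ᶠ p in 𝓝 ((0, 0) : ℝ × ℝ), bx y0 i j p ∈ O ∧ 0 < σ * pd φ (bx y0 i j p) i ∧
      c * (σ * pd φ (bx y0 i j p) i) ≤ gr Y.x f f (ψ (bx y0 i j p)) * aw (Y.x ∘ ψ) (bx y0 i j p) ∧
        ρ (ψ (bx y0 i j p)) = 1 := by
    have : Tendsto (bx y0 i j) (𝓝 (0, 0)) (𝓝 y0) := by
      have := (bx_cont y0 i j).tendsto (0, 0)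
      rwa [hb00] at this
    exact this.eventually ev1
  obtain ⟨δ1, hδ1, hB⟩ : ∃ δ1 : ℝ, 0 < δ1 ∧ ∀ t ∈ Icc (-δ1) δ1, ∀ s ∈ Icc (-δ1) δ1,
      bx y0 i j (t, s) ∈ O ∧ 0 < σ * pd φ (bx y0 i j (t, s)) i ∧
      c * (σ * pd φ (bx y0 i j (t, s)) i) ≤
        gr Y.x f f (ψ (bx y0 i j (t, s))) * aw (Y.x ∘ ψ) (bx y0 i j (t, s)) ∧
        ρ (ψ (bx y0 i j (t, s))) = 1 := by
    obtain ⟨δ1, hδ1, h⟩ := Metric.nhds_basis_closedBall.mem_iff.1 ev2
    refine ⟨δ1, hδ1, fun t ht s hs => h ?_⟩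
    rw [Metric.mem_closedBall, Prod.dist_eq]
    refine max_le ?_ ?_
    · show dist t 0 ≤ δ1
      rw [Real.dist_eq, sub_zero]
      exact abs_le.2 ht
    · show dist s 0 ≤ δ1
      rw [Real.dist_eq, sub_zero]
      exact abs_le.2 hs
  have hder : ∀ t ∈ Icc (-δ1) δ1, ∀ s ∈ Icc (-δ1) δ1,
      HasDerivAt (fun s => φ (bx y0 i j (t, s))) (pd φ (bx y0 i j (t, s)) i) s := by
    intro t ht s hs
    have hO := (hB t ht s hs).1
    have e1 : HasFDerivAt φ (fderiv ℝ φ (bx y0 i j (t, s))) (bx y0 i j (t, s)) :=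
      ((hφs.contDiffAt (hP.isOpen.mem_nhds hO)).differentiableAt (by simp)).hasFDerivAt
    have e2 : HasDerivAt (fun s : ℝ => bx y0 i j (t, s)) (ee i) s := by
      have e3 : HasDerivAt (fun s : ℝ => s • ee i) ((1 : ℝ) • ee i) s :=
        (hasDerivAt_id s).smul_const (ee i)
      rw [one_smul] at e3
      exact (e3.add_const (t • ee j)).const_add y0
    exact e1.comp_hasDerivAt s e2
  have hφy0 : φ (bx y0 i j (0, 0)) = 0 := by
    rw [hb00, hφ]
    show f (ψ y0) = 0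
    rw [hψ0, hfq]
  have h0m : (0 : ℝ) ∈ Icc (-δ1) δ1 := ⟨by linarith, by linarith⟩
  have hmono : StrictMonoOn (fun s => σ * φ (bx y0 i j (0, s))) (Icc (-δ1) δ1) := by
    refine strictMonoOn_of_hasDerivWithinAt_pos (convex_Icc _ _)
      (f' := fun s => σ * pd φ (bx y0 i j (0, s)) i) ?_ ?_ ?_
    · intro s hs
      exact ((hder 0 h0m s hs).const_mul σ).continuousAt.continuousWithinAt
    · intro s hs
      exact ((hder 0 h0m s (interior_subset hs)).const_mul σ).hasDerivWithinAt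
    · intro s hs
      exact (hB 0 h0m s (interior_subset hs)).2.1
  have ht : 0 < σ * φ (bx y0 i j (0, δ1)) := by
    have := hmono h0m (right_mem_Icc.2 (by linarith)) hδ1
    simpa only [hφy0, mul_zero] using this
  have hbo : σ * φ (bx y0 i j (0, -δ1)) < 0 := by
    have := hmono (left_mem_Icc.2 (by linarith)) h0m (show -δ1 < 0 by linarith)
    simpa only [hφy0, mul_zero] using this
  obtain ⟨β, hβ, hβ1, hβ2⟩ : ∃ β : ℝ, 0 < β ∧ β < σ * φ (bx y0 i j (0, δ1)) ∧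
      σ * φ (bx y0 i j (0, -δ1)) < -β := by
    refine ⟨min (σ * φ (bx y0 i j (0, δ1))) (-(σ * φ (bx y0 i j (0, -δ1)))) / 2, ?_, ?_, ?_⟩
    · have : 0 < min (σ * φ (bx y0 i j (0, δ1))) (-(σ * φ (bx y0 i j (0, -δ1)))) :=
        lt_min ht (by linarith)
      linarith
    · have := min_le_left (σ * φ (bx y0 i j (0, δ1))) (-(σ * φ (bx y0 i j (0, -δ1))))
      linarith
    · have := min_le_right (σ * φ (bx y0 i j (0, δ1))) (-(σ * φ (bx y0 i j (0, -δ1))))
      linarith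
  have hct : ∀ s ∈ Icc (-δ1) δ1, ContinuousAt (fun t => σ * φ (bx y0 i j (t, s))) 0 := by
    intro s hs
    have hO := (hB 0 h0m s hs).1
    have e1 : ContinuousAt φ (bx y0 i j (0, s)) :=
      hφs.continuousOn.continuousAt (hP.isOpen.mem_nhds hO)
    have e2 : Continuous fun t : ℝ => bx y0 i j (t, s) :=
      (bx_cont y0 i j).comp (by fun_prop)
    exact continuousAt_const.mul
      (ContinuousAt.comp (g := φ) (f := fun t : ℝ => bx y0 i j (t, s)) e1 e2.continuousAt)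
  have hm1 : δ1 ∈ Icc (-δ1) δ1 := ⟨by linarith, le_refl _⟩
  have hm2 : -δ1 ∈ Icc (-δ1) δ1 := ⟨le_refl _, by linarith⟩
  obtain ⟨δ2, hδ2, hδ21, hT⟩ : ∃ δ2 : ℝ, 0 < δ2 ∧ δ2 ≤ δ1 ∧ ∀ t ∈ Icc (-δ2) δ2,
      β ≤ σ * φ (bx y0 i j (t, δ1)) ∧ σ * φ (bx y0 i j (t, -δ1)) ≤ -β := by
    have e : ∀ᶠ t in 𝓝 (0 : ℝ), β < σ * φ (bx y0 i j (t, δ1)) ∧
        σ * φ (bx y0 i j (t, -δ1)) < -β :=
      ((hct _ hm1).eventually (lt_mem_nhds hβ1)).and ((hct _ hm2).eventually (gt_mem_nhds hβ2))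
    obtain ⟨δ, hδ, h⟩ := Metric.nhds_basis_closedBall.mem_iff.1 e
    refine ⟨min δ δ1, lt_min hδ hδ1, min_le_right _ _, fun t ht => ?_⟩
    have hm := min_le_left δ δ1
    have : t ∈ Metric.closedBall (0 : ℝ) δ := by
      rw [Metric.mem_closedBall, Real.dist_eq, sub_zero]
      exact abs_le.2 ⟨by linarith [ht.1], by linarith [ht.2]⟩
    exact ⟨(h this).1.le, (h this).2.le⟩
  refine ⟨c * (2 * δ2), β / 2, by positivity, by positivity, fun ε hε hεβ => ?_⟩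
  have hεβ2 : 2 * ε ≤ β := by linarith
  have hd1 : ContDiff ℝ ∞ (deriv Φ) := (contDiff_infty_iff_deriv.1 hΦ.smooth).2
  have hd2 : Continuous (deriv (deriv Φ)) := (contDiff_infty_iff_deriv.1 hd1).2.continuous
  have hfc : Continuous f := ContMDiff.continuous hf
  -- the integrand
  obtain ⟨F, hF⟩ : ∃ F : Y.S → ℝ,
      F = fun p => deriv (deriv Φ) (f p / ε) / ε * gr Y.x f f p * ρ p := ⟨_, rfl⟩
  have hFc : Continuous F := by
    rw [hF]
    exact (((hd2.comp (hfc.div_const ε)).div_const ε).mul hgc).mul ρ.continuous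
  have hF0 : ∀ p, 0 ≤ F p := by
    intro p
    rw [hF]
    exact mul_nonneg (mul_nonneg (div_nonneg (hΦ.dd0 _) hε.le) (hg0 p)) (hρ0 p)
  have goal1 : ∫ p in Y.A, deriv (deriv Φ) (f p / ε) / ε * gr Y.x f f p * ρ p ∂Y.μ =
      ∫ p in Y.A, F p ∂Y.μ := by rw [hF]
  rw [goal1]
  -- the smaller patch
  obtain ⟨O', hO'⟩ : ∃ O' : Set E2, O' = {y | |y j - y0 j| < δ2 ∧ |y i - y0 i| < δ1} := ⟨_, rfl⟩
  have hO'o : IsOpen O' := by
    rw [hO']
    have c1 : Continuous fun y : E2 => |y j - y0 j| := by fun_prop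
    have c2 : Continuous fun y : E2 => |y i - y0 i| := by fun_prop
    exact (isOpen_lt c1 continuous_const).inter (isOpen_lt c2 continuous_const)
  have hpre : bx y0 i j ⁻¹' O' = Ioo (-δ2) δ2 ×ˢ Ioo (-δ1) δ1 := by
    ext p
    rw [hO']
    simp only [mem_preimage, mem_ofPred_eq, bx_i y0 i j hij, bx_j y0 i j hij, add_sub_cancel_left,
      abs_lt, mem_prod, mem_Ioo]
  have hO'K : O' ⊆ bx y0 i j '' (Icc (-δ2) δ2 ×ˢ Icc (-δ1) δ1) := by
    intro y hy
    have hy' : bx y0 i j (y j - y0 j, y i - y0 i) ∈ O' := by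
      rw [bx_surj y0 i j hij]
      exact hy
    have : (y j - y0 j, y i - y0 i) ∈ bx y0 i j ⁻¹' O' := hy'
    rw [hpre] at this
    exact ⟨_, ⟨Ioo_subset_Icc_self this.1, Ioo_subset_Icc_self this.2⟩, bx_surj y0 i j hij y⟩
  have hsub : Icc (-δ2) δ2 ⊆ Icc (-δ1) δ1 := Icc_subset_Icc (by linarith) hδ21
  have hKO : bx y0 i j '' (Icc (-δ2) δ2 ×ˢ Icc (-δ1) δ1) ⊆ O := by
    rintro _ ⟨⟨t, s⟩, ⟨ht, hs⟩, rfl⟩
    exact (hB t (hsub ht) s hs).1
  have hKc : IsCompact (bx y0 i j '' (Icc (-δ2) δ2 ×ˢ Icc (-δ1) δ1)) :=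
    (isCompact_Icc.prod isCompact_Icc).image (bx_cont y0 i j)
  have hOO : O' ⊆ O := hO'K.trans hKO
  have hP' : Y.toDat.Pch O' ψ :=
    { isOpen := hO'o
      smooth := hP.smooth.mono hOO
      inj := hP.inj.mono hOO
      im := fun U hU => hP.im U (hU.trans hOO)
      int := (image_mono hOO).trans hP.int
      imm := fun y hy => hP.imm y (hOO hy) }
  -- restriction to the patch
  have s1 : ∫ p in ψ '' O', F p ∂Y.μ ≤ ∫ p in Y.A, F p ∂Y.μ := by
    refine setIntegral_mono_set (Y.toDat.cont_int hFc).integrableOn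
      (Eventually.of_forall hF0) (LE.le.eventuallyLE ?_)
    exact ((image_mono hOO).trans hOA).trans inter_subset_left
  rw [h4 Y.toDat O' ψ hP' F hFc.measurable] at s1
  refine le_trans ?_ s1
  -- the lower bound
  obtain ⟨G, hG⟩ : ∃ G : E2 → ℝ,
      G = fun y => c * (deriv (deriv Φ) (φ y / ε) / ε * (σ * pd φ y i)) := ⟨_, rfl⟩
  have hGc' : ContinuousOn G O := by
    rw [hG]
    exact continuousOn_const.mul (((hd2.comp_continuousOn (hφs.continuousOn.div_const ε)).div_const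
      ε).mul hpc)
  have hFw : ContinuousOn (fun y => F (ψ y) * aw (Y.x ∘ ψ) y) O :=
    (hFc.comp_continuousOn hψc).mul hac
  have i1 : IntegrableOn G O' := ((hGc'.mono hKO).integrableOn_compact hKc).mono_set hO'K
  have i2 : IntegrableOn (fun y => F (ψ y) * aw (Y.x ∘ ψ) y) O' :=
    ((hFw.mono hKO).integrableOn_compact hKc).mono_set hO'K
  have s2 : ∫ y in O', G y ≤ ∫ y in O', F (ψ y) * aw (Y.x ∘ ψ) y := by
    refine setIntegral_mono_on i1 i2 hO'o.measurableSet fun y hy => ?_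
    obtain ⟨⟨t, s⟩, ⟨ht, hs⟩, rfl⟩ := hO'K hy
    obtain ⟨_, b2, b3, b4⟩ := hB t (hsub ht) s hs
    have e1 : f (ψ (bx y0 i j (t, s))) = φ (bx y0 i j (t, s)) := by
      rw [hφ]
      rfl
    rw [hG, hF]
    simp only [b4, mul_one, e1]
    have k0 : 0 ≤ deriv (deriv Φ) (φ (bx y0 i j (t, s)) / ε) / ε :=
      div_nonneg (hΦ.dd0 _) hε.le
    have := mul_le_mul_of_nonneg_left b3 k0
    calc c * (deriv (deriv Φ) (φ (bx y0 i j (t, s)) / ε) / ε * (σ * pd φ (bx y0 i j (t, s)) i))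
        = deriv (deriv Φ) (φ (bx y0 i j (t, s)) / ε) / ε *
          (c * (σ * pd φ (bx y0 i j (t, s)) i)) := by ring
      _ ≤ _ := this
      _ = _ := by ring
  refine le_trans (le_of_eq ?_) s2
  -- Fubini
  have s3 : ∫ y in O', G y = ∫ p in bx y0 i j ⁻¹' O', G (bx y0 i j p) :=
    ((bx_mp y0 i j hij).1.setIntegral_preimage_emb (bx_mp y0 i j hij).2 G O').symm
  rw [s3, hpre]
  have i3 : IntegrableOn (fun p => G (bx y0 i j p)) (Ioo (-δ2) δ2 ×ˢ Ioo (-δ1) δ1)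
      ((volume : Measure ℝ).prod (volume : Measure ℝ)) := by
    have e1 : ContinuousOn (fun p => G (bx y0 i j p)) (Icc (-δ2) δ2 ×ˢ Icc (-δ1) δ1) :=
      hGc'.comp (bx_cont y0 i j).continuousOn fun p hp => hKO ⟨p, hp, rfl⟩
    exact (e1.integrableOn_compact (isCompact_Icc.prod isCompact_Icc)).mono_set
      (prod_mono Ioo_subset_Icc_self Ioo_subset_Icc_self)
  have s4 : ∫ p in Ioo (-δ2) δ2 ×ˢ Ioo (-δ1) δ1, G (bx y0 i j p) =
      ∫ t in Ioo (-δ2) δ2, ∫ s in Ioo (-δ1) δ1, G (bx y0 i j (t, s)) :=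
    setIntegral_prod _ i3
  rw [s4]
  have s5 : ∀ t ∈ Ioo (-δ2) δ2, ∫ s in Ioo (-δ1) δ1, G (bx y0 i j (t, s)) = c := by
    intro t ht
    have ht' := Ioo_subset_Icc_self ht
    rw [hG]
    simp only []
    rw [integral_const_mul]
    have := one_var hΦ (g := fun s => φ (bx y0 i j (t, s)))
      (g' := fun s => pd φ (bx y0 i j (t, s)) i) (δ := δ1) (ε := ε) (β := β) (σ := σ) hδ1 hε hεβ2
      hσ (hder t (hsub ht')) ?_ (hT t ht').1 (hT t ht').2
    · rw [this, mul_one]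
    · have e1 : ContinuousOn (fun y => pd φ y i) O :=
        ((hφs.continuousOn_fderiv_of_isOpen hP.isOpen (by simp)).clm_apply continuousOn_const)
      have e2 : Continuous fun s : ℝ => bx y0 i j (t, s) := (bx_cont y0 i j).comp (by fun_prop)
      exact e1.comp e2.continuousOn fun s hs => (hB t (hsub ht') s hs).1
  rw [setIntegral_congr_fun measurableSet_Ioo s5, setIntegral_const]
  rw [Real.volume_real_Ioo_of_le (by linarith), smul_eq_mul]
  ring

end Pool.Agent.H10.CM
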