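import Pool.Agent.H60.CM.Basic

/-!
# Stable surfaces of constant mean curvature spanning a circle: row LPQ
-/

set_option autoImplicit false

open Set Function MeasureTheory Filter Topology
open scoped Manifold ContDiff Matrix
open Pool.Agent.H60.CM

namespace Pool.Agent.H10.CM

theorem sf_nonneg (h6 : T_NNG) (D : Dat) (p : D.S) : 0 ≤ sf D.x D.N p := by
  unfold sf
  refine Finset.sum_nonneg fun k _ => ?_
  unfold gr
  exact (h6 _ _ _ _ (D.cmc.imm p)).1

theorem sf_cont (h5 : T_CON) (D : Dat) : Continuous (sf D.x D.N) := by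
  unfold sf
  refine continuous_finsetSum _ fun k _ => ?_
  exact (h5 D _ _ (Dat.Sm.coord D D.smN k) (Dat.Sm.coord D D.smN k)).1

theorem pf_LPQ (h1 : T_WJE) (h2 : T_STA) (h3 : T_CUT) (h4 : T_ODD) (h5 : T_CON) (h6 : T_NNG) :
    T_LPQ := by
  intro Y hst c0 c1 c2 hneg Φ hΦ η hη hη0
  -- the Killing function
  obtain ⟨a, b, hab⟩ : ∃ a b : V3, oddk Y c0 c1 c2 = kf Y.x Y.N a b := ⟨_, _, rfl⟩
  set f : Y.S → ℝ := oddk Y c0 c1 c2 with hf
  have hfs : Y.toDat.Sm f := by rw [hab]; exact Y.toDat.smkf a b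
  have hfix : ∀ p, Y.τ p = p → f p ≤ 0 := by
    intro p hp
    have := h4 Y c0 c1 c2 p
    rw [hp] at this
    rw [← hf] at this
    linarith
  have hA : IsOpen Y.A := Y.half.isOpen
  have hsf0 : ∀ p, 0 ≤ sf Y.x Y.N p := sf_nonneg h6 Y.toDat
  have hsfc : Continuous (sf Y.x Y.N) := sf_cont h5 Y.toDat
  have hηs : Y.toDat.Sm η := hη.1
  have hηc : Continuous η := Dat.Sm.cont _ hηs
  have hfc : Continuous f := Dat.Sm.cont _ hfs
  have hmf : ∀ p, MD f p := fun p => Dat.Sm.md _ hfs p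
  have hmη : ∀ p, MD η p := fun p => Dat.Sm.md _ hηs p
  have hηA : ∀ p, p ∉ Y.A → η p = 0 := fun p hp => by
    by_contra h
    exact hp (hη.2 (subset_tsupport _ h)).1
  refine ⟨(∫ p, sf Y.x Y.N p * |f p| ∂Y.μ) + 2 * (∫ p, sf Y.x Y.N p * η p ∂Y.μ) +
    |QQ Y.x Y.N Y.μ η| / 2, ?_⟩
  intro ε hε hε1
  -- the functions of one variable
  have hΦ1 : ContDiff ℝ ∞ (deriv Φ) := (contDiff_infty_iff_deriv.1 hΦ.smooth).2
  have hΦ2 : ContDiff ℝ ∞ (deriv (deriv Φ)) := (contDiff_infty_iff_deriv.1 hΦ1).2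
  have hdiv : ContDiff ℝ ∞ (fun t : ℝ => t / ε) := contDiff_id.div_const ε
  let F : ℝ → ℝ := fun t => ε * Φ (t / ε)
  let F1 : ℝ → ℝ := fun t => deriv Φ (t / ε)
  have hF : ContDiff ℝ ∞ F := contDiff_const.mul (hΦ.smooth.comp hdiv)
  have hF1 : ContDiff ℝ ∞ F1 := hΦ1.comp hdiv
  have hdd : ∀ t : ℝ, HasDerivAt (fun t : ℝ => t / ε) (1 / ε) t := fun t =>
    (hasDerivAt_id t).div_const ε
  have hF' : ∀ t, HasDerivAt F (F1 t) t := by
    intro t
    have e1 : HasDerivAt Φ (deriv Φ (t / ε)) (t / ε) :=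
      ((hΦ.smooth.differentiable (by simp)) (t / ε)).hasDerivAt
    have e2 := (e1.comp t (hdd t)).const_mul ε
    have e3 : ε * (deriv Φ (t / ε) * (1 / ε)) = F1 t := by
      simp only [F1]; field_simp
    rw [← e3]
    exact e2
  have hF1' : ∀ t, HasDerivAt F1 (deriv (deriv Φ) (t / ε) / ε) t := by
    intro t
    have e1 : HasDerivAt (deriv Φ) (deriv (deriv Φ) (t / ε)) (t / ε) :=
      ((hΦ1.differentiable (by simp)) (t / ε)).hasDerivAt
    have e2 := e1.comp t (hdd t)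
    have e3 : deriv (deriv Φ) (t / ε) * (1 / ε) = deriv (deriv Φ) (t / ε) / ε := by ring
    rw [← e3]
    exact e2
  have hFF : ∀ t, HasDerivAt (fun t => F t * F1 t)
      (F1 t * F1 t + F t * (deriv (deriv Φ) (t / ε) / ε)) t := fun t => (hF' t).mul (hF1' t)
  have hFz : ∀ t ≤ ε, F t = 0 := by
    intro t ht
    have : Φ (t / ε) = 0 := hΦ.zero _ ((div_le_one hε).2 ht)
    simp only [F, this, mul_zero]
  have hF1z : ∀ t < ε, F1 t = 0 := by
    intro t ht
    have e1 : F =ᶠ[𝓝 t] fun _ => 0 := by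
      filter_upwards [Iio_mem_nhds ht] with u hu
      exact hFz u (le_of_lt hu)
    have e2 := (hF' t).deriv
    rw [← e2, e1.deriv_eq]
    simp
  have hF1z' : ∀ t ≤ ε, F1 t = 0 := by
    intro t ht
    rcases lt_or_eq_of_le ht with h | h
    · exact hF1z t h
    · rw [h]
      -- by continuity
      have hc : Continuous F1 := hF1.continuous
      have hcl : IsClosed {u : ℝ | F1 u = 0} := isClosed_eq hc continuous_const
      have hsub : Iio ε ⊆ {u : ℝ | F1 u = 0} := fun u hu => hF1z u hu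
      have h3 : closure (Iio ε) ⊆ {u : ℝ | F1 u = 0} := hcl.closure_subset_iff.2 hsub
      rw [closure_Iio] at h3
      exact h3 (mem_Iic.2 le_rfl)
  have hF0 : ∀ t, 0 ≤ F t := fun t => mul_nonneg hε.le (hΦ.nn _)
  have hFle : ∀ t, F t ≤ |t| := by
    intro t
    have e1 := hΦ.le (t / ε)
    rw [abs_div, abs_of_pos hε] at e1
    calc F t = ε * Φ (t / ε) := rfl
      _ ≤ ε * (|t| / ε) := mul_le_mul_of_nonneg_left e1 hε.le
      _ = |t| := by field_simp
  have hlin : ∀ t, t * F1 t - F t ≤ 2 * ε := by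
    intro t
    have e1 := (abs_le.1 (hΦ.lin (t / ε))).2
    have e2 : t * F1 t - F t = ε * (t / ε * deriv Φ (t / ε) - Φ (t / ε)) := by
      simp only [F1, F]; field_simp
    rw [e2]
    nlinarith
  -- the test functions
  let v : Y.S → ℝ := Y.A.indicator fun p => F (f p)
  let z : Y.S → ℝ := Y.A.indicator fun p => F (f p) * F1 (f p)
  let w0 : Y.S → ℝ := Y.A.indicator fun p => F1 (f p)
  have hv : Tst (Y.A ∩ Y.int) v := h3 Y f hfs hneg hfix F ε hF hε hFz
  have hz : Tst (Y.A ∩ Y.int) z := h3 Y f hfs hneg hfix (fun t => F t * F1 t) ε (hF.mul hF1) hε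
    (fun t ht => by simp only [hFz t ht, zero_mul])
  have hw0 : Tst (Y.A ∩ Y.int) w0 := h3 Y f hfs hneg hfix F1 ε hF1 hε hF1z'
  let w : Y.S → ℝ := fun p => w0 p * η p
  have hw : Tst (Y.A ∩ Y.int) w := Tst.mul_right (D := Y.toDat) hw0 hηs
  have hvs : Y.toDat.Sm v := hv.1
  have hzs : Y.toDat.Sm z := hz.1
  have hws : Y.toDat.Sm w := hw.1
  have hvc : Continuous v := Dat.Sm.cont _ hvs
  have hzc : Continuous z := Dat.Sm.cont _ hzs
  have hwc : Continuous w := Dat.Sm.cont _ hws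
  have hmv : ∀ p, MD v p := fun p => Dat.Sm.md _ hvs p
  -- values
  have vA : ∀ p ∈ Y.A, v p = F (f p) := fun p hp => indicator_of_mem hp _
  have zA : ∀ p ∈ Y.A, z p = F (f p) * F1 (f p) := fun p hp => indicator_of_mem hp _
  have wA : ∀ p ∈ Y.A, w p = F1 (f p) * η p := fun p hp => by
    show w0 p * η p = _
    rw [show w0 p = F1 (f p) from indicator_of_mem hp _]
  have vN : ∀ p, p ∉ Y.A → v p = 0 := fun p hp => indicator_of_notMem hp _
  have zN : ∀ p, p ∉ Y.A → z p = 0 := fun p hp => indicator_of_notMem hp _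
  have wN : ∀ p, p ∉ Y.A → w p = 0 := fun p hp => by
    show w0 p * η p = 0
    rw [show w0 p = 0 from indicator_of_notMem hp _, zero_mul]
  have nsup : ∀ {g : Y.S → ℝ}, Tst (Y.A ∩ Y.int) g → ∀ p, p ∉ Y.A → p ∉ tsupport g :=
    fun hg p hp h => hp (hg.2 h).1
  -- gradients on A
  have evA : ∀ (g : Y.S → ℝ) (p : Y.S), p ∈ Y.A → Y.A.indicator g =ᶠ[𝓝 p] g := by
    intro g p hp
    filter_upwards [hA.mem_nhds hp] with q hq
    exact indicator_of_mem hq g
  have gv : ∀ (g : Y.S → ℝ) (p : Y.S), p ∈ Y.A → gr Y.x g v p = F1 (f p) * gr Y.x g f p := by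
    intro g p hp
    rw [gr_congr (evA _ p hp), gr_comp (hmf p) (hF' (f p)).differentiableAt, (hF' (f p)).deriv]
  have gz : ∀ p ∈ Y.A, gr Y.x f z p = (F1 (f p) * F1 (f p) +
      F (f p) * (deriv (deriv Φ) (f p / ε) / ε)) * gr Y.x f f p := by
    intro p hp
    rw [gr_congr (evA _ p hp)]
    have := gr_comp (x := Y.x) (f := f) (hmf p) (φ := fun t => F t * F1 t)
      (hFF (f p)).differentiableAt
    rw [this, (hFF (f p)).deriv]
  have gw : ∀ p ∈ Y.A, gr Y.x f w p = F1 (f p) * gr Y.x f η p +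
      η p * (deriv (deriv Φ) (f p / ε) / ε * gr Y.x f f p) := by
    intro p hp
    have e0 : w =ᶠ[𝓝 p] fun q => F1 (f q) * η q := by
      filter_upwards [hA.mem_nhds hp] with q hq
      exact wA q hq
    have e1 : MD (fun q => F1 (f q)) p :=
      MD.comp_left (hmf p) (hF1' (f p)).differentiableAt
    rw [gr_congr e0, gr_mul e1 (hmη p), gr_comp (hmf p) (hF1' (f p)).differentiableAt,
      (hF1' (f p)).deriv]
  have gvv : ∀ p ∈ Y.A, gr Y.x v v p = F1 (f p) * F1 (f p) * gr Y.x f f p := by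
    intro p hp
    rw [gv v p hp, gr_comm, gv f p hp]
    ring
  have gvη : ∀ p ∈ Y.A, gr Y.x v η p = F1 (f p) * gr Y.x f η p := by
    intro p hp
    rw [gr_comm, gv η p hp, gr_comm]
  have hG0 : ∀ p, 0 ≤ gr Y.x f f p := fun p => by
    unfold gr
    exact (h6 _ _ _ _ (Y.toDat.cmc.imm p)).1
  -- continuity of gradients
  have cfz : Continuous (gr Y.x f z) := (h5 Y.toDat f z hfs hzs).1
  have cvv : Continuous (gr Y.x v v) := (h5 Y.toDat v v hvs hvs).1
  have cfw : Continuous (gr Y.x f w) := (h5 Y.toDat f w hfs hws).1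
  have cvη : Continuous (gr Y.x v η) := (h5 Y.toDat v η hvs hηs).1
  have cηη : Continuous (gr Y.x η η) := (h5 Y.toDat η η hηs hηs).1
  have int' : ∀ {g : Y.S → ℝ}, Continuous g → Integrable g Y.μ := fun hg => Y.toDat.cont_int hg
  -- the integrand of the statement
  set Dε : Y.S → ℝ := fun p => deriv (deriv Φ) (f p / ε) / ε * gr Y.x f f p * η p with hD
  have hDA : ∀ p, p ∉ Y.A → Dε p = 0 := fun p hp => by simp only [hD, hηA p hp, mul_zero]
  have hD1 : ∫ p in Y.A, Dε p ∂Y.μ = ∫ p, Dε p ∂Y.μ :=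
    setIntegral_eq_integral_of_forall_compl_eq_zero hDA
  have hD2 : ∀ p, Dε p = gr Y.x f w p - gr Y.x v η p := by
    intro p
    by_cases hp : p ∈ Y.A
    · rw [gw p hp, gvη p hp]
      simp only [hD]
      ring
    · rw [hDA p hp, gr_zero (nsup hw p hp), gr_comm, gr_zero (nsup hv p hp), sub_zero]
  have hD3 : ∫ p, Dε p ∂Y.μ = ∫ p, sf Y.x Y.N p * f p * w p ∂Y.μ - ∫ p, gr Y.x v η p ∂Y.μ := by
    have e1 : ∫ p, gr Y.x f w p ∂Y.μ = ∫ p, sf Y.x Y.N p * f p * w p ∂Y.μ := by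
      have := h1 Y.toDat a b w (hw.mono inter_subset_right)
      rw [← hab] at this
      exact this
    rw [← e1, ← integral_sub (int' cfw) (int' cvη)]
    exact integral_congr_ae (Eventually.of_forall hD2)
  -- the quadratic form
  have q1 : QQ Y.x Y.N Y.μ v ≤ 2 * ε * ∫ p, sf Y.x Y.N p * |f p| ∂Y.μ := by
    have e1 : ∫ p, gr Y.x f z p ∂Y.μ = ∫ p, sf Y.x Y.N p * f p * z p ∂Y.μ := by
      have := h1 Y.toDat a b z (hz.mono inter_subset_right)
      rw [← hab] at this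
      exact this
    have e2 : ∫ p, gr Y.x v v p ∂Y.μ ≤ ∫ p, gr Y.x f z p ∂Y.μ := by
      refine integral_mono (int' cvv) (int' cfz) ?_
      intro p
      by_cases hp : p ∈ Y.A
      · show gr Y.x v v p ≤ gr Y.x f z p
        rw [gvv p hp, gz p hp]
        have t1 : 0 ≤ F (f p) * (deriv (deriv Φ) (f p / ε) / ε) :=
          mul_nonneg (hF0 _) (div_nonneg (hΦ.dd0 _) hε.le)
        have t2 := mul_nonneg t1 (hG0 p)
        nlinarith
      · show gr Y.x v v p ≤ gr Y.x f z p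
        rw [gr_zero (nsup hv p hp), gr_zero (nsup hz p hp)]
    have e3 : QQ Y.x Y.N Y.μ v = ∫ p, gr Y.x v v p ∂Y.μ - ∫ p, sf Y.x Y.N p * v p ^ 2 ∂Y.μ := by
      unfold QQ
      exact integral_sub (int' cvv) (int' (hsfc.mul (hvc.pow 2)))
    have e4 : ∫ p, sf Y.x Y.N p * f p * z p ∂Y.μ - ∫ p, sf Y.x Y.N p * v p ^ 2 ∂Y.μ ≤
        2 * ε * ∫ p, sf Y.x Y.N p * |f p| ∂Y.μ := by
      have j1 : Integrable (fun p => sf Y.x Y.N p * f p * z p) Y.μ :=
        int' ((hsfc.mul hfc).mul hzc)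
      have j2 : Integrable (fun p => sf Y.x Y.N p * v p ^ 2) Y.μ := int' (hsfc.mul (hvc.pow 2))
      have j3 : Integrable (fun p => 2 * ε * (sf Y.x Y.N p * |f p|)) Y.μ :=
        int' (continuous_const.mul (hsfc.mul hfc.abs))
      rw [← integral_sub j1 j2, ← integral_const_mul]
      refine integral_mono (j1.sub j2) j3 ?_
      intro p
      show sf Y.x Y.N p * f p * z p - sf Y.x Y.N p * v p ^ 2 ≤ 2 * ε * (sf Y.x Y.N p * |f p|)
      by_cases hp : p ∈ Y.A
      · rw [vA p hp, zA p hp]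
        have t1 : F (f p) * (f p * F1 (f p) - F (f p)) ≤ |f p| * (2 * ε) := by
          calc F (f p) * (f p * F1 (f p) - F (f p)) ≤ F (f p) * (2 * ε) :=
                mul_le_mul_of_nonneg_left (hlin _) (hF0 _)
            _ ≤ |f p| * (2 * ε) := mul_le_mul_of_nonneg_right (hFle _) (by positivity)
        have t2 := mul_le_mul_of_nonneg_left t1 (hsf0 p)
        nlinarith
      · rw [vN p hp, zN p hp]
        have := mul_nonneg (hsf0 p) (abs_nonneg (f p))
        nlinarith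
    rw [e3]
    linarith
  -- the mixed term
  have q2 : ∫ p, gr Y.x v η p ∂Y.μ - ∫ p, sf Y.x Y.N p * (v p * η p) ∂Y.μ ≤
      2 * ε * (∫ p, sf Y.x Y.N p * η p ∂Y.μ) - ∫ p, Dε p ∂Y.μ := by
    have e1 : ∫ p, sf Y.x Y.N p * f p * w p ∂Y.μ - ∫ p, sf Y.x Y.N p * (v p * η p) ∂Y.μ ≤
        2 * ε * ∫ p, sf Y.x Y.N p * η p ∂Y.μ := by
      have j1 : Integrable (fun p => sf Y.x Y.N p * f p * w p) Y.μ :=
        int' ((hsfc.mul hfc).mul hwc)
      have j2 : Integrable (fun p => sf Y.x Y.N p * (v p * η p)) Y.μ :=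
        int' (hsfc.mul (hvc.mul hηc))
      have j3 : Integrable (fun p => 2 * ε * (sf Y.x Y.N p * η p)) Y.μ :=
        int' (continuous_const.mul (hsfc.mul hηc))
      rw [← integral_sub j1 j2, ← integral_const_mul]
      refine integral_mono (j1.sub j2) j3 ?_
      intro p
      show sf Y.x Y.N p * f p * w p - sf Y.x Y.N p * (v p * η p) ≤ 2 * ε * (sf Y.x Y.N p * η p)
      by_cases hp : p ∈ Y.A
      · rw [vA p hp, wA p hp]
        have t1 := mul_le_mul_of_nonneg_left (hlin (f p)) (mul_nonneg (hsf0 p) (hη0 p))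
        nlinarith
      · rw [vN p hp, wN p hp]
        have := mul_nonneg (hsf0 p) (hη0 p)
        nlinarith
    rw [hD3]
    linarith
  -- stability
  set s : ℝ := Real.sqrt ε with hs
  have hs0 : 0 < s := Real.sqrt_pos.2 hε
  have hs2 : s * s = ε := Real.mul_self_sqrt hε.le
  have hss : Tst (Y.A ∩ Y.int) (fun p => s * η p) :=
    Tst.mul_left (D := Y.toDat) (Dat.Sm.const _ s) hη
  have hvs' : Tst (Y.A ∩ Y.int) (fun p => v p + s * η p) := Tst.add (D := Y.toDat) hv hss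
  have q3 := h2 Y hst _ hvs'
  have q4 : QQ Y.x Y.N Y.μ (fun p => v p + s * η p) = QQ Y.x Y.N Y.μ v +
      2 * s * (∫ p, gr Y.x v η p ∂Y.μ - ∫ p, sf Y.x Y.N p * (v p * η p) ∂Y.μ) +
      s * s * QQ Y.x Y.N Y.μ η := by
    have e1 : ∀ p, gr Y.x (fun q => v q + s * η q) (fun q => v q + s * η q) p =
        gr Y.x v v p + 2 * s * gr Y.x v η p + s * s * gr Y.x η η p := by
      intro p
      have m1 : MD (fun q => s * η q) p := (md_const s p).mul (hmη p)
      rw [gr_add (hmv p) m1, gr_const_mul (hmη p), gr_comm _ _ v, gr_comm _ _ η,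
        gr_add (hmv p) m1, gr_add (hmv p) m1, gr_const_mul (hmη p), gr_const_mul (hmη p),
        gr_comm _ η v]
      ring
    unfold QQ
    have i1 : Integrable (fun p => gr Y.x v v p - sf Y.x Y.N p * v p ^ 2) Y.μ :=
      int' (cvv.sub (hsfc.mul (hvc.pow 2)))
    have i2 : Integrable (fun p => gr Y.x v η p - sf Y.x Y.N p * (v p * η p)) Y.μ :=
      int' (cvη.sub (hsfc.mul (hvc.mul hηc)))
    have i3 : Integrable (fun p => gr Y.x η η p - sf Y.x Y.N p * η p ^ 2) Y.μ :=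
      int' (cηη.sub (hsfc.mul (hηc.pow 2)))
    have i0 : Integrable (fun p => sf Y.x Y.N p * (v p * η p)) Y.μ :=
      int' (hsfc.mul (hvc.mul hηc))
    have i2' : Integrable (fun p => 2 * s * (gr Y.x v η p - sf Y.x Y.N p * (v p * η p))) Y.μ :=
      i2.const_mul _
    have i3' : Integrable (fun p => s * s * (gr Y.x η η p - sf Y.x Y.N p * η p ^ 2)) Y.μ :=
      i3.const_mul _
    have i12 : Integrable (fun p => gr Y.x v v p - sf Y.x Y.N p * v p ^ 2 +
        2 * s * (gr Y.x v η p - sf Y.x Y.N p * (v p * η p))) Y.μ := i1.add i2'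
    rw [← integral_sub (int' cvη) i0, ← integral_const_mul,
      ← integral_const_mul, ← integral_add i1 i2', ← integral_add i12 i3']
    refine integral_congr_ae (Eventually.of_forall fun p => ?_)
    show gr Y.x (fun q => v q + s * η q) (fun q => v q + s * η q) p -
      sf Y.x Y.N p * (v p + s * η p) ^ 2 = _
    rw [e1]
    ring
  rw [q4] at q3
  rw [hD1]
  have hC2 : 0 ≤ ∫ p, sf Y.x Y.N p * η p ∂Y.μ :=
    integral_nonneg fun p => mul_nonneg (hsf0 p) (hη0 p)
  have hQ := le_abs_self (QQ Y.x Y.N Y.μ η)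
  have hsε : s ≤ 1 := by nlinarith
  set C1 := ∫ p, sf Y.x Y.N p * |f p| ∂Y.μ with hC1
  set C2 := ∫ p, sf Y.x Y.N p * η p ∂Y.μ with hC2d
  set Q := QQ Y.x Y.N Y.μ η with hQd
  set DD := ∫ p, Dε p ∂Y.μ with hDD
  have m1 : 2 * s * (∫ p, gr Y.x v η p ∂Y.μ - ∫ p, sf Y.x Y.N p * (v p * η p) ∂Y.μ) ≤
      2 * s * (2 * ε * C2 - DD) := mul_le_mul_of_nonneg_left q2 (by positivity)
  have m2 : 0 ≤ 2 * ε * C1 + 2 * s * (2 * ε * C2 - DD) + s * s * |Q| := by
    have : s * s * Q ≤ s * s * |Q| := mul_le_mul_of_nonneg_left hQ (by positivity)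
    linarith
  rw [← hs2] at m2
  have m3 : s * (2 * DD) ≤ s * (2 * (s * C1) + 4 * (s * s * C2) + s * |Q|) := by
    nlinarith
  have m4 : 2 * DD ≤ 2 * (s * C1) + 4 * (s * s * C2) + s * |Q| := le_of_mul_le_mul_left m3 hs0
  have m5 : s * s * C2 ≤ s * C2 := by
    have : s * s ≤ s := by nlinarith
    exact mul_le_mul_of_nonneg_right this hC2
  linarith

end Pool.Agent.H10.CM
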